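import Pool.Agent.helper11.EXC.RHO
import Pool.Agent.helper11.EXC3.ZC0
import Pool.Agent.helper13.EXC.RFL
import Pool.Agent.helper13.EXC3.ZZM
import Pool.Agent.helper14.EXC.RKO
import Pool.Agent.helper14.EXC3.ZAL
import Pool.Agent.helper15.EXC.IOI
import Pool.Agent.helper18.EXC.GRP
import Pool.Agent.helper18.EXC3.ZEQ
import Pool.Agent.helper2.EXC.YST
import Pool.Agent.helper20.EXC.IMT
import Pool.Agent.helper21.EXC.IOT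
import Pool.Agent.helper22.EXC3.ZM2
import Pool.Agent.helper24.EXC.NRM
import Pool.Agent.helper25.EXC.UIN
import Pool.Agent.helper26.EXC.PCL
import Pool.Agent.helper28.EXC.NBR
import Pool.Agent.helper28.EXC3.ZGP
import Pool.Agent.helper29.EXC.RFP
import Pool.Agent.helper29.EXC3.ZW2
import Pool.Agent.helper3.EXC.COL
import Pool.Agent.helper39.EXC.WUQ
import Pool.Agent.helper39.EXC3.ZKS
import Pool.Agent.helper41.EXC.XAU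
import Pool.Agent.helper42.EXC3.ZFN
import Pool.Agent.helper42.EXC3.ZSC
import Pool.Agent.helper43.EXC.GEN
import Pool.Agent.helper43.EXC3.ZGA
import Pool.Agent.helper45.EXC.WPG
import Pool.Agent.helper45.EXC3.ZM1
import Pool.Agent.helper49.EXC.NRF
import Pool.Agent.helper5.EXC.TPF
import Pool.Agent.helper51.EXC.DOM
import Pool.Agent.helper51.EXC3.Z3F
import Pool.Agent.helper53.EXC.IMX
import Pool.Agent.helper53.EXC.THR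
import Pool.Agent.helper54.EXC.THT
import Pool.Agent.helper57.EXC.FL0
import Pool.Agent.helper57.EXC3.ZQR
import Pool.Agent.helper6.EXC.STR
import Pool.Agent.helper60.EXC.FIX
import Pool.Agent.helper60.EXC3.ZNR
import Pool.Agent.helper61.EXC.CNN
import Pool.Agent.helper64.EXC.RMB
import Pool.Agent.helper67.EXC.EXF
import Pool.Agent.helper68.EXC.GEO
import Pool.Agent.helper71.EXC3.ZMT
import Pool.Agent.helper74.EXC.ACT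
import Pool.Agent.helper75.EXC3.ZIN
import Pool.Agent.helper78.EXC.DIC
import Pool.Agent.helper78.EXC3.ZTB
import Pool.Agent.helper8.EXC.UNQ
import Pool.Agent.helper83.EXC3.ZJC
import Pool.Agent.helper85.EXC.TSY
import Pool.Agent.helper88.EXC3.ZAD
import Pool.Agent.helper89.EXC3.ZM0
import Pool.Agent.helper9.EXC.INV
import Pool.Agent.helper9.EXC3.ZSE
import Pool.Agent.helper90.EXC.JAC
import Pool.Agent.helper92.EXC3.ZPR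
import Pool.Agent.helper98.EXC3.ZSL

/-!
# Project EXC (MP_561ff4_al), block 3: all rows put together
-/

set_option autoImplicit false

namespace Pool.Agent.EXC.A3

theorem g_ZGP : Pool.Agent.EXC.ZGP_stmt := Pool.Agent.EXC.ZGP
theorem g_ZPR : Pool.Agent.EXC.ZPR_stmt := Pool.Agent.EXC.ZPR
theorem g_ZGA : Pool.Agent.EXC.ZGA_stmt := Pool.Agent.EXC.ZGA
theorem g_RHO : Pool.Agent.EXC.RHO_stmt := Pool.Agent.EXC.RHO
theorem g_IOT : Pool.Agent.EXC.IOT_stmt := Pool.Agent.EXC.IOT g_RHO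
theorem g_RMB : Pool.Agent.EXC.RMB_stmt := Pool.Agent.EXC.RMB g_IOT g_RHO
theorem g_IOI : Pool.Agent.EXC.IOI_stmt := Pool.Agent.EXC.IOI g_RHO
theorem g_RFL : Pool.Agent.EXC.RFL_stmt := Pool.Agent.EXC.RFL
theorem g_DIC : Pool.Agent.EXC.DIC_stmt := Pool.Agent.EXC.DIC
theorem g_DOM : Pool.Agent.EXC.DOM_stmt := Pool.Agent.EXC.DOM g_RFL g_DIC
theorem g_THT : Pool.Agent.EXC.THT_stmt := Pool.Agent.EXC.THT g_RFL g_DIC g_DOM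
theorem g_JAC : Pool.Agent.EXC.JAC_stmt := Pool.Agent.EXC.JAC
theorem g_STR : Pool.Agent.EXC.STR_stmt := Pool.Agent.EXC.STR
theorem g_INV : Pool.Agent.EXC.INV_stmt := Pool.Agent.EXC.INV
theorem g_XAU : Pool.Agent.EXC.XAU_stmt := Pool.Agent.EXC.XAU g_INV
theorem g_EXF : Pool.Agent.EXC.EXF_stmt := Pool.Agent.EXC.EXF g_JAC g_STR g_INV g_XAU
theorem g_ACT : Pool.Agent.EXC.ACT_stmt := Pool.Agent.EXC.ACT
theorem g_NRF : Pool.Agent.EXC.NRF_stmt := Pool.Agent.EXC.NRF g_EXF g_ACT g_RFL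
theorem g_WPG : Pool.Agent.EXC.WPG_stmt := Pool.Agent.EXC.WPG g_NRF g_RFL
theorem g_NBR : Pool.Agent.EXC.NBR_stmt := Pool.Agent.EXC.NBR g_RFL g_DOM
theorem g_ZW2 : Pool.Agent.EXC.ZW2_stmt := Pool.Agent.EXC.ZW2 g_RHO g_RMB g_IOI g_THT g_WPG g_NBR g_EXF g_XAU g_INV
theorem g_ZMT : Pool.Agent.EXC.ZMT_stmt := Pool.Agent.EXC.ZMT
theorem g_RFP : Pool.Agent.EXC.RFP_stmt := Pool.Agent.EXC.RFP g_RFL g_DIC
theorem g_COL : Pool.Agent.EXC.COL_stmt := Pool.Agent.EXC.COL g_JAC g_STR g_INV g_XAU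
theorem g_GEN : Pool.Agent.EXC.GEN_stmt := Pool.Agent.EXC.GEN g_DIC g_RFP g_EXF g_ACT g_COL
theorem g_UIN : Pool.Agent.EXC.UIN_stmt := Pool.Agent.EXC.UIN g_RFP g_EXF g_ACT g_COL
theorem g_RKO : Pool.Agent.EXC.RKO_stmt := Pool.Agent.EXC.RKO g_ACT
theorem g_YST : Pool.Agent.EXC.YST_stmt := Pool.Agent.EXC.YST g_EXF g_GEN g_UIN g_RKO
theorem g_PCL : Pool.Agent.EXC.PCL_stmt := Pool.Agent.EXC.PCL g_EXF g_ACT g_YST g_NBR g_WPG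
theorem g_UNQ : Pool.Agent.EXC.UNQ_stmt := Pool.Agent.EXC.UNQ g_EXF g_PCL g_ACT g_NBR
theorem g_NRM : Pool.Agent.EXC.NRM_stmt := Pool.Agent.EXC.NRM g_EXF g_ACT
theorem g_FIX : Pool.Agent.EXC.FIX_stmt := Pool.Agent.EXC.FIX g_EXF g_UNQ g_NRM g_NBR
theorem g_ZC0 : Pool.Agent.EXC.ZC0_stmt := Pool.Agent.EXC.ZC0 g_ZW2 g_ZMT g_FIX g_EXF g_NBR
theorem g_TPF : Pool.Agent.EXC.TPF_stmt := Pool.Agent.EXC.TPF g_EXF g_ACT g_COL g_INV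
theorem g_ZFN : Pool.Agent.EXC.ZFN_stmt := Pool.Agent.EXC.ZFN g_EXF g_PCL g_TPF g_INV g_NBR
theorem g_IMX : Pool.Agent.EXC.IMX_stmt := Pool.Agent.EXC.IMX g_EXF g_UNQ g_NBR
theorem g_ZM0 : Pool.Agent.EXC.ZM0_stmt := Pool.Agent.EXC.ZM0 g_ZGA g_ZC0 g_ZFN g_IMX g_TPF g_PCL g_EXF g_XAU g_NBR
theorem g_ZTB : Pool.Agent.EXC.ZTB_stmt := Pool.Agent.EXC.ZTB g_INV
theorem g_ZEQ : Pool.Agent.EXC.ZEQ_stmt := Pool.Agent.EXC.ZEQ g_ZTB g_INV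
theorem g_ZIN : Pool.Agent.EXC.ZIN_stmt := Pool.Agent.EXC.ZIN g_ZTB g_INV
theorem g_ZZM : Pool.Agent.EXC.ZZM_stmt := Pool.Agent.EXC.ZZM
theorem g_ZJC : Pool.Agent.EXC.ZJC_stmt := Pool.Agent.EXC.ZJC g_ZEQ g_ZIN g_ZZM g_FIX
theorem g_ZAD : Pool.Agent.EXC.ZAD_stmt := Pool.Agent.EXC.ZAD g_EXF g_ACT g_COL g_XAU g_NBR
theorem g_THR : Pool.Agent.EXC.THR_stmt := Pool.Agent.EXC.THR g_EXF g_PCL g_UNQ g_ACT g_COL g_TPF g_NBR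
theorem g_IMT : Pool.Agent.EXC.IMT_stmt := Pool.Agent.EXC.IMT g_PCL g_TPF g_THR g_IMX g_EXF g_NBR g_UNQ
theorem g_TSY : Pool.Agent.EXC.TSY_stmt := Pool.Agent.EXC.TSY g_NBR g_WPG g_RFL
theorem g_ZM1 : Pool.Agent.EXC.ZM1_stmt := Pool.Agent.EXC.ZM1 g_ZGA g_ZJC g_ZFN g_ZAD g_IMX g_IMT g_TPF g_TSY g_UNQ g_EXF g_XAU g_INV g_NBR
theorem g_FL0 : Pool.Agent.EXC.FL0_stmt := Pool.Agent.EXC.FL0
theorem g_ZQR : Pool.Agent.EXC.ZQR_stmt := Pool.Agent.EXC.ZQR g_FL0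
theorem g_ZAL : Pool.Agent.EXC.ZAL_stmt := Pool.Agent.EXC.ZAL
theorem g_ZNR : Pool.Agent.EXC.ZNR_stmt := Pool.Agent.EXC.ZNR
theorem g_ZSE : Pool.Agent.EXC.ZSE_stmt := Pool.Agent.EXC.ZSE g_EXF g_XAU g_UNQ g_IMX g_IMT g_TPF g_ZAD g_NBR
theorem g_CNN : Pool.Agent.EXC.CNN_stmt := Pool.Agent.EXC.CNN g_EXF g_ACT g_NBR g_WPG g_RFL g_TPF
theorem g_ZSC : Pool.Agent.EXC.ZSC_stmt := Pool.Agent.EXC.ZSC g_ZSE g_CNN g_NBR g_IMX g_TSY g_EXF g_UNQ g_XAU g_TPF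
theorem g_ZSL : Pool.Agent.EXC.ZSL_stmt := Pool.Agent.EXC.ZSL g_IMX g_EXF g_UNQ g_XAU g_NBR
theorem g_ZKS : Pool.Agent.EXC.ZKS_stmt := Pool.Agent.EXC.ZKS g_EXF g_XAU g_INV g_UNQ g_NBR
theorem g_GRP : Pool.Agent.EXC.GRP_stmt := Pool.Agent.EXC.GRP
theorem g_ZM2 : Pool.Agent.EXC.ZM2_stmt := Pool.Agent.EXC.ZM2 g_ZW2 g_ZMT g_ZQR g_ZAL g_ZNR g_ZSC g_ZSL g_ZKS g_GRP g_FIX g_EXF g_TPF g_NBR
theorem g_WUQ : Pool.Agent.EXC.WUQ_stmt := Pool.Agent.EXC.WUQ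
theorem g_GEO : Pool.Agent.EXC.GEO_stmt := Pool.Agent.EXC.GEO g_PCL g_TPF g_IMX g_IMT g_WUQ g_FIX g_UNQ g_ACT g_EXF g_NBR
theorem g_Z3F : Pool.Agent.EXC.Z3F_stmt := Pool.Agent.EXC.Z3F g_ZGP g_ZPR g_ZM0 g_ZM1 g_ZM2 g_GEO g_PCL g_TPF g_NBR

end Pool.Agent.EXC.A3
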