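import Pool.Agent.helper17.EXC.All
import Pool.Agent.helper16.EXC.All3

/-!
# Project EXC (MP_561ff4_al): `β_3(x) ≤ 3` for all automorphisms `x ≠ 1` of `E₆(q)`, `E₇(q)`, `E₈(q)`, all `q`
-/

set_option autoImplicit false

namespace Pool.Agent.EXC

theorem R3_of {n : ℕ} (C : Matrix (Fin n) (Fin n) ℤ) [IsC C] (j0 : Fin n) (θ : Fin n → ℤ) (δ : Fin 5 → Fin n) (h : IsE C j0 θ δ)
    (F : Type) [Field F] [Finite F] (x : MulAut (EG C F)) (h1 : x ≠ 1) :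
    ∃ β, IsLeast (Pool.Agent.GS.CSet 3 x) β ∧ β ≤ 3 := by
  have hx : RA C x := f_ARA n C F j0 θ δ h x
  have key : ∃ k ∈ Pool.Agent.GS.CSet 3 x, k ≤ 3 := by
    by_cases h3 : 3 ∣ Nat.card F
    · obtain ⟨p, hp⟩ := CharP.exists F
      have := hp
      have : Fintype F := Fintype.ofFinite F
      obtain ⟨m, hpp, hm⟩ := FiniteField.card F p
      rw [Nat.card_eq_fintype_card, hm] at h3
      have : 3 = p := (Nat.prime_dvd_prime_iff_eq Nat.prime_three hpp).1 (Nat.prime_three.dvd_of_dvd_pow h3)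
      subst this
      exact ⟨2, f_BPW n C F j0 θ δ h x hx h1 3 Nat.prime_three hp, by norm_num⟩
    · exact A3.g_Z3F n C F j0 θ δ h h3 x hx h1
  obtain ⟨k, hk, hk3⟩ := key
  have hl : IsLeast (Pool.Agent.GS.CSet 3 x) (sInf (Pool.Agent.GS.CSet 3 x)) :=
    ⟨Nat.sInf_mem ⟨k, hk⟩, fun k hk => Nat.sInf_le hk⟩
  exact ⟨_, hl, (hl.2 hk).trans hk3⟩

/-- `β_3(x) ≤ 3` for every automorphism `x ≠ 1` of `E₆(q)`, `E₇(q)`, `E₈(q)`. -/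
theorem R3 (F : Type) [Field F] [Finite F] :
    (∀ x : MulAut (Chev CartanMatrix.E₆ F), x ≠ 1 → ∃ β, IsLeast (Pool.Agent.GS.CSet 3 x) β ∧ β ≤ 3) ∧
    (∀ x : MulAut (Chev CartanMatrix.E₇ F), x ≠ 1 → ∃ β, IsLeast (Pool.Agent.GS.CSet 3 x) β ∧ β ≤ 3) ∧
    ∀ x : MulAut (Chev CartanMatrix.E₈ F), x ≠ 1 → ∃ β, IsLeast (Pool.Agent.GS.CSet 3 x) β ∧ β ≤ 3 :=
  ⟨fun x => R3_of _ _ _ _ f_DE6.2 F x, fun x => R3_of _ _ _ _ f_DE7.2 F x, fun x => R3_of _ _ _ _ f_DE8.2 F x⟩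

end Pool.Agent.EXC
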