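import Pool.Agent.helper17.EXC.Spec

/-!
# Project EXC (MP_561ff4_al), block 3: `β_3(x) ≤ 3` for `E₆(q)`, `E₇(q)`, `E₈(q)`, `3 ∤ q`. The rows

Page: `/team-store/C6_MP_561ff4_al_r3_helper16.md`. Owner: helper16. RULES. Row `XXX`: file `Pool/Agent/<seat>/EXC3/XXX.lean`,
`import Pool.Agent.helper16.EXC.Spec3`, `set_option autoImplicit false`, `open Finset`, `namespace Pool.Agent.EXC`, theorem line exactly as
in the lock note (other rows, also of helper17's Spec, only as hypotheses `(hXXX : XXX_stmt)`), auxiliary lemmas prefixed `XXX_`.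
Free lemmas: `Basic.lean`, `Defs.lean` of helper17. No straight double quotes, no convert / congr!. Land, note DONE + path, one line to
helper16. A doubtful statement: tell me at once.

CONVENTIONS as in helper17's Spec. `x_a(t)` is a `g` with `IsX C a t g`; `κ = fm C a b`. For an opposite pair `a, b` (type `-2`) the elements
`x_a(u)`, `x_b(v)` act like the matrices `!![1, -u; 0, 1]`, `!![1, 0; κ v, 1]` (row ZW2, all cases use it only in this way).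
IDEA. `⟨x, x^t, x^s⟩` contains `x t * t⁻¹` and `x s * s⁻¹`. Pass to a power of prime order. Type `-2`: one `t` in a root group, `SL₂`, semilinearity
and squares. No type `-2` but a type `-1`: two root elements, an explicit word of order 3 in `SL₃`. Only types `≥ 0`: two commuting `SL₂`.
-/

set_option autoImplicit false

open Finset

namespace Pool.Agent.EXC

/-! ## Definitions -/

section defs
variable {n : ℕ} (C : Matrix (Fin n) (Fin n) ℤ) [IsC C] {F : Type} [Field F]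

/-- four extremal vectors which behave like the matrix units `E01, E12, E10, E21` of `sl₃` (the form is minus the trace form) -/
structure S3 (e1 e2 f1 f2 : Lm C F) : Prop where
  x1 : Xtr C e1
  x2 : Xtr C e2
  y1 : Xtr C f1
  y2 : Xtr C f2
  a1 : fm C e1 f1 = -1
  a2 : fm C e2 f2 = -1
  b1 : fm C e1 e2 = 0
  b2 : fm C f1 f2 = 0
  c1 : ∃ w, fm C f2 w = 0 ∧ e1 = br C f2 w
  c2 : ∃ w, fm C e1 w = 0 ∧ f2 = br C e1 w
  c3 : ∃ w, fm C f1 w = 0 ∧ e2 = br C f1 w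
  c4 : ∃ w, fm C e2 w = 0 ∧ f1 = br C e2 w

/-- the image of the matrix `M` (of trace zero) -/
noncomputable def i3 (e1 e2 f1 f2 : Lm C F) (M : Matrix (Fin 3) (Fin 3) F) : Lm C F :=
  M 0 1 • e1 + M 1 2 • e2 + M 0 2 • br C e1 e2 + M 1 0 • f1 + M 2 1 • f2 + M 2 0 • br C f2 f1 + M 0 0 • br C e1 f1 +
    (M 0 0 + M 1 1) • br C e2 f2

/-- `x (x_a(u)) = x_b(c σ(u))` -/
def SL (x : MulAut (EG C F)) (σ : F ≃+* F) (a b : Lm C F) (c : F) : Prop :=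
  ∀ (u : F) (h : EG C F), IsX C a u (h : Lm C F ≃ₗ[F] Lm C F) → IsX C b (c * σ u) ((x h : EG C F) : Lm C F ≃ₗ[F] Lm C F)

end defs

/-! ## A. Groups, fields, matrices (Mathlib only) -/

/-- **ZGA** (short-medium; groups). `conj (x t * t⁻¹) = x * (conj t * x * (conj t)⁻¹)⁻¹` (`x * conj t * x⁻¹ = conj (x t)`), so with `g = ![1, conj t, conj s]` the subgroup `H` generated by the three conjugates contains `conj (x t * t⁻¹)`, `conj (x s * s⁻¹)`, hence `conj z`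
(`H.comap MulAut.conj`). `r ∣ orderOf (conj z) ∣ Nat.card H`. -/
def ZGA_stmt : Prop := ∀ (G : Type) [Group G] [Finite G] (x : MulAut G) (t s z : G) (r : ℕ),
  z ∈ Subgroup.closure {x t * t⁻¹, x s * s⁻¹} → (∀ m : ℕ, (MulAut.conj z) ^ m = 1 → r ∣ m) → 3 ∈ Pool.Agent.GS.CSet r x

/-- **ZGP** (short-medium; groups). (1) The `g i` are in the group generated by `x ^ j` and the inner automorphisms, so in that of `x`; `g * x ^ j * g⁻¹ = (g * x * g⁻¹) ^ j`, so the subgroup generated by the conjugates of `x ^ j` is contained in that of `x`; Lagrange (`Subgroup.card_dvd_of_le`).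
(2) `g = ![1]`: the order of `x` divides the order of the subgroup. -/
def ZGP_stmt : Prop := ∀ (G : Type) [Group G] [Finite G] (x : MulAut G) (r j k : ℕ),
  (k ∈ Pool.Agent.GS.CSet r (x ^ j) → k ∈ Pool.Agent.GS.CSet r x) ∧ (r ∣ orderOf x → 1 ∈ Pool.Agent.GS.CSet r x)

/-- **ZMT** (short; matrices). (1) `M = !![0, -1; 1, 1]`: `M² = !![-1, -1; 1, 0]`, `M³ = -1`; `N U = U N` with `U = !![1, -1; 0, 1]` gives `N 1 0 = 0`; for `m = 3k+1, 3k+2` the entry is `±1`. (2) `M² = M - 1` (Cayley-Hamilton for `2 × 2`, or entries), `M³ = -1`. `m = 3k+1`: `±M = 1`,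
trace `±2 = 1`: `3 = 0` or `1 = 0`. `m = 3k+2`: `±(M - 1) = 1`, `M = 0` (determinant) or `M = 2` (trace `4 = 1`). -/
def ZMT_stmt : Prop := ∀ (F : Type) [Field F],
  (∀ m : ℕ, (!![0, -1; 1, 1] : Matrix (Fin 2) (Fin 2) F) ^ m * !![1, -1; 0, 1] = !![1, -1; 0, 1] * !![0, -1; 1, 1] ^ m → 3 ∣ m) ∧
  ((3 : F) ≠ 0 → ∀ M : Matrix (Fin 2) (Fin 2) F, M.det = 1 → M.trace = 1 → ∀ m : ℕ, M ^ m = 1 → 3 ∣ m)

/-- **ZZM** (short; matrices). `Z = !![-6, -4, -1; 8, 5, 2; 3, 2, 1]`: `Z³ = 1`, `Z 2 0 = 3`, `Z² 2 0 = 1`. Commuting with `E02 = Matrix.single 0 2 1` (trace zero): the entry `(0,0)` gives `(Z^m) 2 0 = 0`. So `m` is divisible by `3`. -/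
def ZZM_stmt : Prop := ∀ (F : Type) [Field F], (3 : F) ≠ 0 → ∀ m : ℕ,
  (∀ M : Matrix (Fin 3) (Fin 3) F, M.trace = 0 →
    (!![-6, -4, -1; 8, 5, 2; 3, 2, 1] : Matrix (Fin 3) (Fin 3) F) ^ m * M = M * !![-6, -4, -1; 8, 5, 2; 3, 2, 1] ^ m) → 3 ∣ m

/-- **ZAL** (short; fields). `u = v σ(v)⁻¹ σ²(v) σ³(v)⁻¹ ⋯ σ^(ℓ-1)(v) = ∏_(i<ℓ) (σ^i v)^((-1)^i)`: in `u σ(u)` everything cancels except `v` and `σ^ℓ(v) = v`. (Induction: `u_k = ∏_(i<k)`, `u_k σ(u_k) = v (σ^k v)^((-1)^(k-1))`.) -/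
def ZAL_stmt : Prop := ∀ (F : Type) [Field F] (σ : F ≃+* F) (ℓ : ℕ), Odd ℓ → (∀ u, (⇑σ)^[ℓ] u = u) → ∀ v : F, v ≠ 0 →
  ∃ u : F, u ≠ 0 ∧ u * σ u = v ^ 2

/-- **ZNR** (short-medium; fields). The norm is onto. Characteristic 2: `c = w²`, `σ(w)² = w²`, so `σ w = w`, `u = w`. Otherwise choose `e = y - σ y ≠ 0` (`σ e = -e`); `u = p + r e` with `p, r` in the fixed field `F₀` has `u σ(u) = p² - e² r²`, `e² ∈ F₀`; in the finite field `F₀` (a subfield) the equation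
`p² - e² r² = c` is solvable (`FiniteField.exists_root_sum_quadratic` or pigeonhole: the sets `{p²}`, `{c + e² r²}` have more than `|F₀|/2` elements). Or `FiniteField.norm_surjective`. -/
def ZNR_stmt : Prop := ∀ (F : Type) [Field F] [Finite F] (σ : F ≃+* F), (∀ u, σ (σ u) = u) → (∃ u, σ u ≠ u) → ∀ c : F, c ≠ 0 → σ c = c →
  ∃ u : F, u ≠ 0 ∧ u * σ u = c

/-- **ZQR** (medium; fields). `K` an algebraic closure, `q = |F|`. FL0 (a proved row, may be used as hypothesis) has: `x ^ q = x → x ∈ F`, `(x+y)^q = x^q + y^q`. EIGENVALUES: if `z ∈ K*`, `M.det = 1`, `M.trace = z + z⁻¹` then `z² - (tr M) z + 1 = 0`, so `det (M - z) = 0` over `K`, `M v = z v`, `M^m v = z^m v`: `M^m = 1` gives `z^m = 1`.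
`ω` a primitive cube root of unity: trace `-1`; `(ω - 1)²/ω = -3`. So if `-3/c` is a square `v²`: trace `2 - 3 = -1`, `M^m = 1` gives `ω^m = 1`, `3 ∣ m`. In characteristic 2 every element is a square. Let `q` be odd and `-3/c` not a square. Let `N = q - 1` or `N = q + 1` be divisible by `3` (and by 2), `g ∈ K` a primitive `N`-th root of unity
(`N ≠ 0` in `K`), `ω = g^(N/3)`; `z^N = 1` gives `z^q = z^(±1)` and `z + z⁻¹ ∈ F`. Let `D = g + g⁻¹ - 2 ∈ F`, `D = (g-1)²/g ≠ 0`. CLAIM: `-3 D` is not a square in `F`: `-3 D = (ω-1)²(g-1)²/(ωg) = y²`, `z = (ω-1)(g-1)/y` has `z² = ωg`; `z^N = 1`: for `N = q-1` as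
`ω, g ∈ F`; for `N = q+1`: `(ω-1)^q = ω⁻¹ - 1 = -(ω-1)/ω`, so `z^q = z/(ωg) = z⁻¹`. `ω = (ω²)²`, so `g = (z ω⁻²)²` with `(z ω⁻²)^N = 1`: `g^(N/2) = 1`, a contradiction. In the finite field `F` the product of the nonsquares `-3/c` and ... : `-3/c` is not a square and `-3D` is not a square, so `(-3/c)(-3D) = 9 D/c` is a square,
so `D/c = v²`: trace `2 + D = g + g⁻¹`, `M^m = 1` gives `g^m = 1`, `N ∣ m`, `3 ∣ m`. -/
def ZQR_stmt : Prop := ∀ (F : Type) [Field F] [Finite F], ¬ 3 ∣ Nat.card F → ∀ c : F, c ≠ 0 → ∃ v : F, v ≠ 0 ∧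
  ∀ M : Matrix (Fin 2) (Fin 2) F, M.det = 1 → M.trace = 2 + c * v ^ 2 → ∀ m : ℕ, M ^ m = 1 → 3 ∣ m

/-! ## B. The Lie algebra and the group -/

section
variable {n : ℕ} {F : Type} [Field F]

/-- **ZPR** (short). `x ^ (j+1) = x * x ^ j` (or the other order), `Subgroup.map_map`; `x ^ 0`: `Subgroup.map_id`. -/
def ZPR_stmt : Prop := ∀ (n : ℕ) (C : Matrix (Fin n) (Fin n) ℤ) [IsC C] (F : Type) [Field F] (x : MulAut (EG C F)) (j : ℕ),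
  RA C x → RA C (x ^ j)

/-- **ZW2** (medium; the model is PRD). uses: RHO, RMB, IOI, THT, WPG, NBR, EXF, XAU, INV. Words in an opposite pair. `k a = c E θ`, `k b = c' E β`, `(θ,β) = -2` (Tp); THT, WPG with `(ρ_01, ρ_10)` (product `-2`, RHO): `g a = c₁ E ρ_01`, `g b = c₂ E ρ_10`, `g ∈ GE`, `c₁, c₂ ≠ 0`; `fm a b = c₁ c₂` (`Au g`, `fm_E_E`).
`g x_a(u) g⁻¹ = x_(c₁ E ρ_01)(u) = x_(ρ_01)(c₁ u)` (EXF, XAU) acts (`Rm`, RMB, `et 0 1 = -1`) as `1 - c₁ u E01`; `g x_b(v) g⁻¹` as `1 + c₂ v E10` (`et 1 0 = 1`). `Rm` is multiplicative, so for the word `l` with product `1`: `Rm 1 (∏ m_p)`, IOI: `∏ m_p` is scalar; all `m_p` are block diagonal with the identity in the indices `2..5`, so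
`∏ m_p = 1`, and the product of the `2 × 2` blocks `!![1, -c₁ u; 0, 1]`, `!![1, 0; c₂ v, 1]` is `1`. Conjugate by `diag(c₁, 1)`: `!![1, -u; 0, 1]`, `!![1, 0; c₁ c₂ v, 1]`. -/
def ZW2_stmt : Prop := ∀ (n : ℕ) (C : Matrix (Fin n) (Fin n) ℤ) [IsC C] (F : Type) [Field F] (j0 : Fin n) (θ : Fin n → ℤ) (δ : Fin 5 → Fin n),
  IsE C j0 θ δ → ∀ a b : Lm C F, Tp C θ a b (-2) → ∀ h : Bool × F → EG C F,
  (∀ p, IsX C (if p.1 then b else a) p.2 ((h p : EG C F) : Lm C F ≃ₗ[F] Lm C F)) → ∀ l : List (Bool × F), (l.map h).prod = 1 →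
  (l.map fun p => if p.1 then !![1, 0; fm C a b * p.2, 1] else !![1, -p.2; 0, 1]).prod = (1 : Matrix (Fin 2) (Fin 2) F)

/-- **ZC0** (medium). uses: ZW2, ZMT, FIX, EXF. Two commuting `SL₂`. `z = (t' t⁻¹)(s' s⁻¹) = k₁ k₂`, `k₁ = t⁻¹ s'`, `k₂ = t' s⁻¹` (move `t'` to the right past `t⁻¹` and `s'`). `k₁` commutes with `t'` and `s`, so with `k₂`. `conj z ^ m = 1`: `z^m` is central, so `z^m = 1` (FIX), `k₁^m k₂^m = 1`, so `k₂^m` commutes with `t'`.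
The word `k₂^m t' k₂^(-m) t'⁻¹ = 1` in `t' = x_b(1)`, `s⁻¹ = x_f(-1)` (and the inverses `x_b(-1)`, `x_f(1)`); ZW2 for the pair `(b, f)`, `κ = -1`: `t' ↦ U = !![1, -1; 0, 1]`, `s⁻¹ ↦ !![1, 0; 1, 1]`, `k₂ ↦ M = !![0, -1; 1, 1]`. So `M^m U = U M^m`, ZMT (1). -/
def ZC0_stmt : Prop := ∀ (n : ℕ) (C : Matrix (Fin n) (Fin n) ℤ) [IsC C] (F : Type) [Field F] (j0 : Fin n) (θ : Fin n → ℤ) (δ : Fin 5 → Fin n),
  IsE C j0 θ δ → ∀ (b f : Lm C F) (t t' s s' : EG C F), Tp C θ b f (-2) → fm C b f = -1 →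
  IsX C b 1 (t' : Lm C F ≃ₗ[F] Lm C F) → IsX C f 1 (s : Lm C F ≃ₗ[F] Lm C F) →
  t * t' = t' * t → t * s = s * t → t' * s' = s' * t' → s * s' = s' * s →
  ∀ m : ℕ, (MulAut.conj ((t' * t⁻¹) * (s' * s⁻¹))) ^ m = 1 → 3 ∣ m

/-- **ZFN** (short-medium). uses: EXF, PCL, TPF, INV. The fourth point. `k a = c E θ`, `k b = c' E β`, `(θ,β) = 0` or `-1`; `f = μ k⁻¹ (E (-β))`, `μ` such that `fm b f = -1` (`fm (k b) (k f) = c' μ`). `Tp a f m` with the same `k`: `(θ, -β) = 0` or `1`. `(b, f)` has some type (PCL), and it is `-2` as `fm b f ≠ 0` (TPF). -/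
def ZFN_stmt : Prop := ∀ (n : ℕ) (C : Matrix (Fin n) (Fin n) ℤ) [IsC C] (F : Type) [Field F] (j0 : Fin n) (θ : Fin n → ℤ) (δ : Fin 5 → Fin n),
  IsE C j0 θ δ → ∀ a b : Lm C F,
  (Tp C θ a b 0 → ∃ f, Ex C f ∧ Tp C θ a f 0 ∧ Tp C θ b f (-2) ∧ fm C b f = -1) ∧
  (Tp C θ a b (-1) → ∃ f, Ex C f ∧ Tp C θ a f 1 ∧ Tp C θ b f (-2) ∧ fm C b f = -1)

/-- **ZAD** (medium). uses: EXF, ACT, COL, XAU, NBR. A collinear pair spans root groups. `v = 0` or `u = 0`: scalars (EXF, XAU (4), `x_a(0) = 1`). Otherwise `k a = c E θ`, `k b = c' E β`, `(θ,β) = 1`: `x_(θ-β)(s) E β = E β ± s E θ` (ACT, `(θ-β, β) = -1`), so `k (u a + v b) = u c E θ + v c' E β` is a multiple of some `g E β`; `Ex` is invariant under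
`k⁻¹` (EXF). `x_(p E θ + q E β)(1) = x_θ(p) x_β(q)` (COL, first part, `t = 1`), `x_(c E θ)(u) = x_θ(c u)`; conjugate by `k⁻¹` (EXF / XAU (3)). -/
def ZAD_stmt : Prop := ∀ (n : ℕ) (C : Matrix (Fin n) (Fin n) ℤ) [IsC C] (F : Type) [Field F] (j0 : Fin n) (θ : Fin n → ℤ) (δ : Fin 5 → Fin n),
  IsE C j0 θ δ → ∀ a b : Lm C F, Tp C θ a b 1 → ∀ u v : F, (u ≠ 0 ∨ v ≠ 0) → Ex C (u • a + v • b) ∧
  ∀ g h : Lm C F ≃ₗ[F] Lm C F, IsX C a u g → IsX C b v h → IsX C (u • a + v • b) 1 (g * h)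

/-- **ZTB** (medium). uses: INV (third and fourth part: `fm` symmetric, `br` antisymmetric). The table of `sl₃` for `e1, e2`. Write `e3 = [e1,e2]`, `f3 = [f2,f1]`, `h1 = [e1,f1]`, `h2 = [e2,f2]`. `[e1,e1] = 0`; `[e1,e3] = 2 fm(e1,e2) e1 = 0` (`sq`); `[e1,f2] = [e1,[e1,w]] = 0` (c2, `sq`), in the same way `[f2,e1] = 0` (c1), `[e2,f1] = 0` (c4), `[f1,e2] = 0` (c3);
`[e1,h1] = 2 fm(e1,f1) e1 = -2 e1`; `[h2,e1] = -e1`: `str` for `a = f2`, `v = e2`, `w` of c1 (`e1 = [f2,w]`, `fm(f2,w) = 0`): `fm(f2,[e2,w]) f2 = fm(f2,e2) e1 + [[f2,e2],e1] = -e1 - [h2,e1]`, `fm(f2,[e2,w]) = fm([f2,e2],w) = -fm(e2,[f2,w]) = -fm(e2,e1) = 0` (`inv`, signs by antisymmetry); in the same way `[h1,f2] = f2` (`str` for `e1`, `f1`, `w` of c2),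
`[h1,e2] = -e2` (`str` for `f1`, `e1`, `w` of c3), `[h2,f1] = f1` (`str` for `e2`, `f2`, `w` of c4). `[e1,f3] = [[e1,f2],f1] + [f2,[e1,f1]] = [f2,h1] = -f2` (`jac`). For `e2`: `[e2,e1] = -e3`, `[e2,e3] = -[e2,[e2,e1]] = 0`, `[e2,f1] = 0`, `[e2,f3] = [[e2,f2],f1] + [f2,[e2,f1]] = [h2,f1] = f1`, `[e2,h1] = e2`, `[e2,h2] = -2 e2`.
Then compare coefficients: `[E01,M]` has `(M11 - M00)` at `01`, `M12` at `02`, `M10` at `00`, `-M10` at `11`, `-M20` at `21`; `[E12,M]` has `M22 - M11 = -M00 - 2 M11` at `12`, `-M01` at `02`, `M20` at `10`, `M21` at `11`. The form: `fm(e1, ·)` is `-1` on `f1` and `0` on the others: `fm(e1,e3) = -fm([e1,e1],e2) = 0`, `fm(e1,f3) = -fm([f2,e1],f1) = 0`,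
`fm(e1,h1) = 0`, `fm(e1,h2) = -fm([e2,e1],f2) = fm(e3,f2) = -fm(e2,[e1,f2]) = 0`, `fm(e1,f2) = fm(e1,[e1,w]) = 0`; `fm(e2, ·)`: `fm(e2,h1) = -fm(e2,[f1,e1]) = fm([f1,e2],e1) = 0`, and so on. -/
def ZTB_stmt : Prop := ∀ (n : ℕ) (C : Matrix (Fin n) (Fin n) ℤ) [IsC C] (F : Type) [Field F] (e1 e2 f1 f2 : Lm C F), S3 C e1 e2 f1 f2 →
  ∀ M : Matrix (Fin 3) (Fin 3) F, M.trace = 0 →
  br C e1 (i3 C e1 e2 f1 f2 M) = i3 C e1 e2 f1 f2 (Matrix.single 0 1 1 * M - M * Matrix.single 0 1 1) ∧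
  br C e2 (i3 C e1 e2 f1 f2 M) = i3 C e1 e2 f1 f2 (Matrix.single 1 2 1 * M - M * Matrix.single 1 2 1) ∧
  fm C e1 (i3 C e1 e2 f1 f2 M) = -M 1 0 ∧ fm C e2 (i3 C e1 e2 f1 f2 M) = -M 2 1

/-- **ZEQ** (medium). uses: ZTB, INV. The action of the root elements. For `e1`: `xe e1 t (ι M) = ι M + t [e1, ι M] + t² fm(e1, ι M) e1`, `(1+tE) M (1-tE) = M + t (EM - ME) - t² EME`, `E01 M E01 = M10 E01`, `ι E01 = e1`, ZTB. The same for `e2`. SYMMETRY: `S3 e1 e2 f1 f2` gives `S3 f2 f1 e2 e1` (c1 and c2, c3 and c4 are exchanged, `fm` is symmetric), and with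
`M'_(ij) = M_(2-i,2-j)` (`M' = M.submatrix Fin.rev Fin.rev`): `i3 f2 f1 e2 e1 M' = i3 e1 e2 f1 f2 M` for trace zero (`[f2,e2] = -h2`, `M' 0 0 = M 2 2 = -(M 0 0 + M 1 1)`, ..). So ZTB for `f2, f1` gives the last two statements. -/
def ZEQ_stmt : Prop := ∀ (n : ℕ) (C : Matrix (Fin n) (Fin n) ℤ) [IsC C] (F : Type) [Field F] (e1 e2 f1 f2 : Lm C F), S3 C e1 e2 f1 f2 →
  ∀ (t : F) (M : Matrix (Fin 3) (Fin 3) F), M.trace = 0 →
  xe C e1 t (i3 C e1 e2 f1 f2 M) = i3 C e1 e2 f1 f2 ((1 + Matrix.single 0 1 t) * M * (1 - Matrix.single 0 1 t)) ∧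
  xe C e2 t (i3 C e1 e2 f1 f2 M) = i3 C e1 e2 f1 f2 ((1 + Matrix.single 1 2 t) * M * (1 - Matrix.single 1 2 t)) ∧
  xe C f1 t (i3 C e1 e2 f1 f2 M) = i3 C e1 e2 f1 f2 ((1 + Matrix.single 1 0 t) * M * (1 - Matrix.single 1 0 t)) ∧
  xe C f2 t (i3 C e1 e2 f1 f2 M) = i3 C e1 e2 f1 f2 ((1 + Matrix.single 2 1 t) * M * (1 - Matrix.single 2 1 t))

/-- **ZIN** (short-medium). uses: ZTB, ZEQ, INV. `i3` is injective on matrices of trace zero if `3 ≠ 0`. `ι M = 0`: `fm(e1, ·)`, `fm(e2, ·)` give `M10 = M21 = 0`; apply `[e1, ·]` first: `ι [E01,M] = 0`, its entries `10`, `21`: `-M20 = 0`; the same with `f2, f1` in place of `e1, e2` (symmetry as in ZEQ): `M12 = M01 = M02 = 0`. Then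
`0 = [e1, ι M] = (M11 - M00) e1`, `0 = [e2, ι M] = (-M00 - 2 M11) e2`, `e1, e2 ≠ 0` (`fm(e1,f1) = -1`): `M11 = M00`, `3 M00 = 0`. -/
def ZIN_stmt : Prop := ∀ (n : ℕ) (C : Matrix (Fin n) (Fin n) ℤ) [IsC C] (F : Type) [Field F] (e1 e2 f1 f2 : Lm C F), S3 C e1 e2 f1 f2 →
  (3 : F) ≠ 0 → ∀ M : Matrix (Fin 3) (Fin 3) F, M.trace = 0 → i3 C e1 e2 f1 f2 M = 0 → M = 0

/-- **ZJC** (medium). uses: ZEQ, ZIN, ZZM, FIX, XAU. `z = (t' t⁻¹)² (s s'⁻¹)²`. By ZEQ `z (ι M) = ι (Z M Z')`, `Z = ((1 + E12)(1 - E01))² ((1 + E21)(1 + E10))² = !![1,-2,-1;0,1,2;0,0,1] * !![1,0,0;2,1,0;3,2,1] = !![-6,-4,-1;8,5,2;3,2,1]`, `Z' = Z⁻¹ = ((1 - E10)(1 - E21))² ((1 + E01)(1 - E12))²` (`x_a(-1)` is the inverse of `x_a(1)`, XAU).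
`conj z ^ m = 1`: `z^m` is central, so `z^m = 1` (FIX). So `ι (Z^m M Z'^m - M) = 0` for all `M` of trace zero, ZIN: `Z^m M = M Z^m`; ZZM. -/
def ZJC_stmt : Prop := ∀ (n : ℕ) (C : Matrix (Fin n) (Fin n) ℤ) [IsC C] (F : Type) [Field F] (j0 : Fin n) (θ : Fin n → ℤ) (δ : Fin 5 → Fin n),
  IsE C j0 θ δ → (3 : F) ≠ 0 → ∀ (e1 e2 f1 f2 : Lm C F) (t t' s s' : EG C F), S3 C e1 e2 f1 f2 →
  IsX C e1 1 (t : Lm C F ≃ₗ[F] Lm C F) → IsX C e2 1 (t' : Lm C F ≃ₗ[F] Lm C F) → IsX C f2 1 (s : Lm C F ≃ₗ[F] Lm C F) →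
  IsX C f1 (-1) (s' : Lm C F ≃ₗ[F] Lm C F) → ∀ m : ℕ, (MulAut.conj ((t' * t⁻¹) ^ 2 * ((s' * s⁻¹) ^ 2)⁻¹)) ^ m = 1 → 3 ∣ m

/-- **ZKS** (medium). uses: EXF, XAU, INV, UNQ, TPF, PCL, ACT. `σ(κ) = κ c d`, `κ = fm a b`. Take `u, v` with `κ u v = -1`. `e = x_a(u) b = b + u [a,b] + u² κ a` and `e' = x_b(v) a = a - v [a,b] + v² κ b` satisfy `e = λ e'`, `λ = u² κ`. So `x_a(u) x_b(1) x_a(-u) = x_e(1) = x_(e')(λ) = x_b(v) x_a(λ) x_b(-v)` (EXF, XAU). Apply `x`, `u' = c σ(u)`, `v' = d σ(v)`: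
`x_b(u') x_a(d) x_b(-u') = x_a(v') x_b(c σ(λ)) x_a(-v')`, that is `x_(e₁)(d) = x_(e₂)(c σ(λ))`, `e₁ = x_b(u') a`, `e₂ = x_a(v') b`, so `d e₁ = c σ(λ) e₂` (UNQ). Compare `fm(·, b)` ... in coordinates (`k a = p E θ`, `k b = p' E (-θ)`, PCL / TPF): coefficients of `a`, of `b` and of `[a,b]` (not `0`, independent: `h_θ ≠ 0` since `[h_θ, E γ] ≠ 0` for `(θ,γ) = ±1`):
`d = c σ(λ) v'² κ`, `d u'² κ = c σ(λ)`, `-d u' = c σ(λ) v'`. So `-d u' = d u'² κ v'`, `κ u' v' = -1 = σ(κ u v)`, `κ c d σ(u v) = σ(κ) σ(u v)`. -/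
def ZKS_stmt : Prop := ∀ (n : ℕ) (C : Matrix (Fin n) (Fin n) ℤ) [IsC C] (F : Type) [Field F] (j0 : Fin n) (θ : Fin n → ℤ) (δ : Fin 5 → Fin n),
  IsE C j0 θ δ → ∀ (x : MulAut (EG C F)) (σ : F ≃+* F) (a b : Lm C F) (c d : F), Ex C a → Ex C b → fm C a b ≠ 0 → c ≠ 0 → d ≠ 0 →
  SL C x σ a b c → SL C x σ b a d → σ (fm C a b) = fm C a b * c * d

/-- **ZSE** (medium). uses: EXF, XAU, UNQ, IMX, IMT, TPF, ZAD. Semilinearity on a collinear pair. There are functions `φ, ψ : F → F` with `x (x_a(u)) = x_b(φ u)`, `x (x_a2(u)) = x_b2(ψ u)` (`Im`; unique by EXF), additive, injective, onto (`Im` is an equivalence). `(b, b2)` has type 1 (IMT). For `(u,v) ≠ (0,0)`: `d(u,v) = u a + v a2` is extremal and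
`x_(d(u,v))(1) = x_a(u) x_a2(v)` (ZAD), mapped to `x_(φ(u) b + ψ(v) b2)(1)` (ZAD). For `c ≠ 0` the element `x_a(cu) x_a2(cv) = x_(d(u,v))(c)` is in the same root group (IMX: image of the root group of `d(u,v)` is a root group; UNQ), so `φ(cu) b + ψ(cv) b2` is a multiple of `φ(u) b + ψ(v) b2`, `b, b2` are independent (TPF: type 2 iff proportional):
`φ(cu)/φ(u) = ψ(cv)/ψ(v)` for all `u, v ≠ 0`. So `σ(c) = φ(c)/φ(1)` has `φ(cu) = σ(c) φ(u)`, `ψ(cv) = σ(c) ψ(v)`; `σ` is additive, multiplicative (`φ(cc') = σ(c) φ(c') = σ(c) σ(c') φ(1)`), bijective; `φ(u) = φ(1) σ(u)`, `ψ(u) = ψ(1) σ(u)`. -/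
def ZSE_stmt : Prop := ∀ (n : ℕ) (C : Matrix (Fin n) (Fin n) ℤ) [IsC C] (F : Type) [Field F] (j0 : Fin n) (θ : Fin n → ℤ) (δ : Fin 5 → Fin n),
  IsE C j0 θ δ → ∀ x : MulAut (EG C F), RA C x → ∀ a b a2 b2 : Lm C F, Ex C a → Ex C b → Ex C a2 → Ex C b2 → Im C x a b → Im C x a2 b2 →
  Tp C θ a a2 1 → ∃ σ : F ≃+* F, (∃ c, c ≠ 0 ∧ SL C x σ a b c) ∧ ∃ c, c ≠ 0 ∧ SL C x σ a2 b2 c

/-- **ZSC** (short-medium). uses: ZSE, CNN, NBR, IMX, TSY, EXF, UNQ, XAU. The same `σ` everywhere. Choose a collinear pair (`(E θ, E β)`, `(θ,β) = 1`) and `σ` from ZSE. `P a`: for all `b` with `Ex b`, `Im x a b` there is `c ≠ 0` with `SL x σ a b c`. Scalars: `x_(λ a)(u) = x_a(λ u)`, constant `c σ(λ)`. Steps of type 1: ZSE gives some `σ'` for both; `SL x σ a b c`, `SL x σ' a b c'` give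
`c σ(u) = c' σ'(u)` (EXF: the parameter is unique), `u = 1`: `c = c'`, `σ = σ'`. CNN. (Other `b` with the same `Im`: proportional, IMX.) -/
def ZSC_stmt : Prop := ∀ (n : ℕ) (C : Matrix (Fin n) (Fin n) ℤ) [IsC C] (F : Type) [Field F] (j0 : Fin n) (θ : Fin n → ℤ) (δ : Fin 5 → Fin n),
  IsE C j0 θ δ → ∀ x : MulAut (EG C F), RA C x → ∃ σ : F ≃+* F, ∀ a b : Lm C F, Ex C a → Ex C b → Im C x a b → ∃ c, c ≠ 0 ∧ SL C x σ a b c

/-- **ZSL** (short-medium). uses: IMX, EXF, UNQ. `σ^ℓ = 1`. `a₀ = a` any extremal vector, `a_(k+1)` with `Im x a_k a_(k+1)` (IMX); by induction `x^k (x_a(u)) = x_(a_k)(c_k σ^k(u))` with `c_k ≠ 0` independent of `u`. `k = ℓ`: `x_a(u) = x_(a_ℓ)(c_ℓ σ^ℓ(u))`, UNQ: `a = c a_ℓ` (take `u = 1`), so `x_a(u) = x_(a_ℓ)(c u)`, and `c u = c_ℓ σ^ℓ(u)`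
for all `u` (EXF); `u = 1`: `c = c_ℓ`. -/
def ZSL_stmt : Prop := ∀ (n : ℕ) (C : Matrix (Fin n) (Fin n) ℤ) [IsC C] (F : Type) [Field F] (j0 : Fin n) (θ : Fin n → ℤ) (δ : Fin 5 → Fin n),
  IsE C j0 θ δ → ∀ x : MulAut (EG C F), RA C x → ∀ σ : F ≃+* F,
  (∀ a b : Lm C F, Ex C a → Ex C b → Im C x a b → ∃ c, c ≠ 0 ∧ SL C x σ a b c) → ∀ ℓ : ℕ, x ^ ℓ = 1 → ∀ u, (⇑σ)^[ℓ] u = u

/-! ## C. The three cases and the theorem -/

/-- **ZM0** (short-medium). uses: ZGA, ZC0, ZFN, IMX, TPF, PCL, EXF, XAU. Only types `≥ 0`. `t = x_a(1)`, `x t = x_b(v)`, `v ≠ 0`; replace `b` by `v b`: `IsX b 1 (x t)`, still `Tp a b 0`, `Im x a b` (TPF, IMX). `f` from ZFN, `s = x_f(1)`; `t' = x t`, `s' = x s`. `t, t'` commute (TPF, type 0), `t, s` commute (type 0), so `t', s'` commute (apply `x`), `s, s'` commute: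
`s' ∈ X_d` with `Im x f d`, `Ex d` (IMX), the type of `(f, d)` is `≥ 0` by hypothesis (PCL gives a type), TPF. ZC0, and ZGA with `z = (x t * t⁻¹) * (x s * s⁻¹)`. (`Finite (EG C F)`.) -/
def ZM0_stmt : Prop := ∀ (n : ℕ) (C : Matrix (Fin n) (Fin n) ℤ) [IsC C] (F : Type) [Field F] [Finite F] (j0 : Fin n) (θ : Fin n → ℤ)
  (δ : Fin 5 → Fin n), IsE C j0 θ δ → ∀ x : MulAut (EG C F), RA C x →
  (∀ (c c' : Lm C F) (m : ℤ), Ex C c → Ex C c' → Im C x c c' → Tp C θ c c' m → 0 ≤ m) →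
  ∀ a b : Lm C F, Ex C a → Ex C b → Im C x a b → Tp C θ a b 0 → 3 ∈ Pool.Agent.GS.CSet 3 x

/-- **ZM1** (medium). uses: ZGA, ZJC, ZFN, ZAD, IMX, IMT, TPF, TSY, UNQ, EXF, XAU, INV, PCL. No type `-2`, a pair of type `-1`. `t = x_a(1)`, `x t = x_b(v)`: replace `b` by `v b` (IMX (4), TPF): `IsX b 1 (x t)`. `f` from ZFN (second part): `Tp a f 1`, `fm b f = -1`; `s = x_f(1)`; `d` with `Im x f d`, scaled such that `IsX d 1 (x s)`; `Tp b d 1` (IMT). ZAD: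
`a + f` is extremal, `IsX (a+f) 1 (t s)`, `IsX (b+d) 1 (x (t s))`; `Im x (a+f) e` for some `e` (IMX), and `x (t s) ≠ 1` lies in both, so `b + d` is a multiple of `e` (UNQ), `Im x (a+f) (b+d)`. Hypothesis: `fm a b = 0`, `fm f d = 0`, `fm (a+f) (b+d) = 0`, so `fm a d = -fm f b = 1`. `S3 a b (-d) f`: `Xtr` (EXF), `fm a (-d) = -1`, `fm b f = -1`,
`fm a b = 0`, `fm (-d) f = 0`; c1 - c4: TPF (`m = 1`) for the pairs `(f, a)`, `(a, f)`, `(d, b)`, `(b, d)` (TSY) with signs. `IsX (-d) (-1) (x s)` (XAU (4)). ZJC, and ZGA with `z = (x t * t⁻¹)^2 * ((x s * s⁻¹)^2)⁻¹`. -/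
def ZM1_stmt : Prop := ∀ (n : ℕ) (C : Matrix (Fin n) (Fin n) ℤ) [IsC C] (F : Type) [Field F] [Finite F] (j0 : Fin n) (θ : Fin n → ℤ)
  (δ : Fin 5 → Fin n), IsE C j0 θ δ → (3 : F) ≠ 0 → ∀ x : MulAut (EG C F), RA C x →
  (∀ c c' : Lm C F, Ex C c → Ex C c' → Im C x c c' → fm C c c' = 0) →
  ∀ a b : Lm C F, Ex C a → Ex C b → Im C x a b → Tp C θ a b (-1) → 3 ∈ Pool.Agent.GS.CSet 3 x

/-- **ZM2** (medium). uses: ZW2, ZMT, ZQR, ZAL, ZNR, ZSC, ZSL, ZKS, GRP, FIX, EXF, UNQ, IMX, TPF. Type `-2`, `x` of prime order `ℓ`. `σ` from ZSC, `SL x σ a b c₀`, `κ = fm a b ≠ 0` (TPF), `c = κ c₀`. For `t = x_a(u)`: `x t * t⁻¹ = x_b(c₀ σ(u)) x_a(-u)`, ZW2: if its `m`-th power is `1` then `M^m = 1`, `M = !![1, 0; c σ(u), 1] * !![1, u; 0, 1]`, determinant `1`,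
trace `2 + c u σ(u)`. `conj z ^ m = 1` gives `z ^ m = 1` (FIX). `ℓ` odd: `v` from ZQR, `u σ(u) = v²` (ZSL, ZAL): done by GRP (`k = 1`, `g = 1`). `ℓ = 2`: `σ² = 1` (ZSL). `σ = 1`: `u = v`, ZQR. `σ ≠ 1`: `x² = 1`, so `Im x b a`; `SL x σ b a d` (ZSC); `x (x (x_a(u))) = x_a(d σ(c₀ σ(u))) = x_a(u)`, so `d σ(c₀) = 1`. ZKS: `σ(κ) = κ c₀ d`, so
`σ(c) = κ c₀ d σ(c₀) = c`. ZNR: `u σ(u) = -1/c`: trace `1`, ZMT (2) (`3 ≠ 0` in `F`). -/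
def ZM2_stmt : Prop := ∀ (n : ℕ) (C : Matrix (Fin n) (Fin n) ℤ) [IsC C] (F : Type) [Field F] [Finite F] (j0 : Fin n) (θ : Fin n → ℤ)
  (δ : Fin 5 → Fin n), IsE C j0 θ δ → ¬ 3 ∣ Nat.card F → ∀ x : MulAut (EG C F), RA C x → (orderOf x).Prime →
  ∀ a b : Lm C F, Ex C a → Ex C b → Im C x a b → Tp C θ a b (-2) → 2 ∈ Pool.Agent.GS.CSet 3 x

/-- **Z3F** (short-medium). uses: ZGP, ZPR, ZM0, ZM1, ZM2, GEO, PCL, TPF. `ℓ` a prime divisor of `orderOf x`, `y = x ^ (orderOf x / ℓ)` has order `ℓ`, `RA y` (ZPR). Some pair `(c, c')` with `Im y c c'` has `fm c c' ≠ 0`: type `-2` (PCL, TPF), ZM2. Otherwise, if some pair has type `-1`: ZM1. Otherwise all types are `≥ 0` and GEO gives a pair of type `0`: ZM0.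
ZGP: from `y` to `x`. (`3 ≠ 0` in `F` as `¬ 3 ∣ Nat.card F`.) -/
def Z3F_stmt : Prop := ∀ (n : ℕ) (C : Matrix (Fin n) (Fin n) ℤ) [IsC C] (F : Type) [Field F] [Finite F] (j0 : Fin n) (θ : Fin n → ℤ)
  (δ : Fin 5 → Fin n), IsE C j0 θ δ → ¬ 3 ∣ Nat.card F → ∀ x : MulAut (EG C F), RA C x → x ≠ 1 →
  ∃ k ∈ Pool.Agent.GS.CSet 3 x, k ≤ 3

end

end Pool.Agent.EXC
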